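import Pool.Agent.N594.NT.Stm

/-!
# NT/OPT (helper373, project NT of helper594): equal parts are optimal
-/

set_option autoImplicit false

open Finset Filter Topology
open scoped Classical

namespace Pool.Agent.N373.NT.OPT

open Pool.Agent.N594.NT

lemma lim2 {b : ℝ} (hb : 0 < b) (hb1 : b < 1) :
    Tendsto (fun p : ℝ => p ^ 2 * b ^ p) atTop (𝓝 0) := by
  have hc : 0 < - Real.log b := by
    have := Real.log_neg hb hb1
    linarith
  have h := tendsto_rpow_mul_exp_neg_mul_atTop_nhds_zero 2 (- Real.log b) hc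
  refine h.congr' ?_
  filter_upwards with p
  rw [Real.rpow_def_of_pos hb]
  congr 1
  · norm_num
  · congr 1
    ring

/-- The function for Jensen's inequality. -/
noncomputable def hh (e : ℕ) (p s : ℝ) : ℝ := s ^ 2 * (1 - s ^ (e + 1)) ^ p - s ^ 2

/-- its derivative -/
noncomputable def hh1 (e : ℕ) (p s : ℝ) : ℝ :=
  2 * s * (1 - s ^ (e + 1)) ^ p - p * (e + 1) * s ^ (e + 2) * (1 - s ^ (e + 1)) ^ (p - 1) - 2 * s

/-- its second derivative -/
noncomputable def hh2 (e : ℕ) (p s : ℝ) : ℝ :=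
  2 * (1 - s ^ (e + 1)) ^ p - 2 * p * (e + 1) * s ^ (e + 1) * (1 - s ^ (e + 1)) ^ (p - 1)
    - p * (e + 1) * (e + 2) * s ^ (e + 1) * (1 - s ^ (e + 1)) ^ (p - 1)
    + p * (p - 1) * (e + 1) ^ 2 * (s ^ (e + 1)) ^ 2 * (1 - s ^ (e + 1)) ^ (p - 2) - 2

lemma base_deriv (e : ℕ) (s : ℝ) :
    HasDerivAt (fun s : ℝ => 1 - s ^ (e + 1)) (-((e + 1) * s ^ e)) s := by
  have h := (hasDerivAt_pow (e + 1) s).const_sub 1
  simpa using h

lemma pow_deriv (e : ℕ) (q s : ℝ) (h0 : 1 - s ^ (e + 1) ≠ 0) :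
    HasDerivAt (fun s : ℝ => (1 - s ^ (e + 1)) ^ q)
      (-((e + 1) * s ^ e) * q * (1 - s ^ (e + 1)) ^ (q - 1)) s :=
  (base_deriv e s).rpow_const (Or.inl h0)

lemma deriv1 (e : ℕ) (p s : ℝ) (h0 : 1 - s ^ (e + 1) ≠ 0) :
    HasDerivAt (hh e p) (hh1 e p s) s := by
  have h1 := ((hasDerivAt_pow 2 s).mul (pow_deriv e p s h0)).sub (hasDerivAt_pow 2 s)
  refine h1.congr_deriv ?_
  unfold hh1
  push_cast
  ring

lemma deriv2 (e : ℕ) (p s : ℝ) (h0 : 1 - s ^ (e + 1) ≠ 0) :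
    HasDerivAt (hh1 e p) (hh2 e p s) s := by
  have h1 := ((((hasDerivAt_id s).const_mul 2).mul (pow_deriv e p s h0)).sub
    (((hasDerivAt_pow (e + 2) s).const_mul (p * (e + 1))).mul (pow_deriv e (p - 1) s h0))).sub
    ((hasDerivAt_id s).const_mul 2)
  refine h1.congr_deriv ?_
  unfold hh2
  have e1 : p - 1 - 1 = p - 2 := by ring
  rw [e1]
  simp only [id]
  push_cast
  ring

lemma hh_concave (e : ℕ) (p b c : ℝ) (hp : 2 ≤ p) (hc : 0 < c) (hc1 : c ≤ 3 / 4)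
    (hb : b = 1 - c ^ (e + 1))
    (hlim : (2 * b ^ p + (e + 1) ^ 2 * (p ^ 2 * b ^ p)) / b ^ 2 ≤ 2) :
    ConcaveOn ℝ (Set.Icc c (3 / 4)) (hh e p) := by
  have hpos : ∀ s ∈ Set.Icc c (3 / 4 : ℝ), 0 < 1 - s ^ (e + 1) ∧ 1 - s ^ (e + 1) ≤ b ∧
      0 ≤ s ^ (e + 1) ∧ s ^ (e + 1) ≤ 1 := by
    intro s hs
    have hs0 : 0 ≤ s := hc.le.trans hs.1
    have h1 : s ^ (e + 1) ≤ s := by
      have := pow_le_pow_of_le_one hs0 (by linarith [hs.2]) (show 1 ≤ e + 1 by omega)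
      simpa using this
    have h2 : c ^ (e + 1) ≤ s ^ (e + 1) := pow_le_pow_left₀ hc.le hs.1 _
    have h3 := hs.2
    refine ⟨by linarith, by rw [hb]; linarith, pow_nonneg hs0 _, by linarith⟩
  have hb0 : 0 < b := by
    have := hpos c ⟨le_rfl, hc1⟩
    linarith [this.1, this.2.1]
  have hb1 : b ≤ 1 := by
    rw [hb]
    have : 0 ≤ c ^ (e + 1) := pow_nonneg hc.le _
    linarith
  refine concaveOn_of_hasDerivWithinAt2_nonpos (f' := hh1 e p) (f'' := hh2 e p)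
    (convex_Icc _ _) ?_ ?_ ?_ ?_
  · intro s hs
    exact (deriv1 e p s (hpos s hs).1.ne').continuousAt.continuousWithinAt
  · intro s hs
    exact (deriv1 e p s (hpos s (interior_subset hs)).1.ne').hasDerivWithinAt
  · intro s hs
    exact (deriv2 e p s (hpos s (interior_subset hs)).1.ne').hasDerivWithinAt
  · intro s hs
    obtain ⟨g1, g2, g3, g4⟩ := hpos s (interior_subset hs)
    set w : ℝ := 1 - s ^ (e + 1) with hw
    set y : ℝ := s ^ (e + 1) with hy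
    have he : (0 : ℝ) ≤ e := Nat.cast_nonneg _
    have w1 : 0 ≤ w ^ (p - 1) := Real.rpow_nonneg g1.le _
    have w2 : 0 ≤ w ^ (p - 2) := Real.rpow_nonneg g1.le _
    have w3 : w ^ p ≤ b ^ p := Real.rpow_le_rpow g1.le g2 (by linarith)
    have w4 : w ^ (p - 2) ≤ b ^ (p - 2) := Real.rpow_le_rpow g1.le g2 (by linarith)
    have w5 : b ^ (p - 2) = b ^ p / b ^ 2 := by
      rw [Real.rpow_sub hb0]
      norm_num
    have w6 : 0 ≤ b ^ p := Real.rpow_nonneg hb0.le _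
    have w7 : b ^ p ≤ b ^ p / b ^ 2 := by
      rw [le_div_iff₀ (by positivity)]
      have : b ^ 2 ≤ 1 := pow_le_one₀ hb0.le hb1
      nlinarith
    have t1 : 0 ≤ 2 * p * (e + 1) * y * w ^ (p - 1) := by positivity
    have t2 : 0 ≤ p * (e + 1) * (e + 2) * y * w ^ (p - 1) := by positivity
    have t3 : p * (p - 1) * (e + 1) ^ 2 * y ^ 2 * w ^ (p - 2) ≤
        (e + 1) ^ 2 * (p ^ 2 * (b ^ p / b ^ 2)) := by
      have k1 : p * (p - 1) ≤ p ^ 2 := by nlinarith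
      have k2 : y ^ 2 ≤ 1 := pow_le_one₀ g3 g4
      have k3 : 0 ≤ y ^ 2 := sq_nonneg y
      have k4 : 0 ≤ p * (p - 1) := by nlinarith
      calc p * (p - 1) * (e + 1) ^ 2 * y ^ 2 * w ^ (p - 2) =
          (e + 1) ^ 2 * ((p * (p - 1)) * y ^ 2 * w ^ (p - 2)) := by ring
        _ ≤ (e + 1) ^ 2 * (p ^ 2 * 1 * b ^ (p - 2)) := by
            apply mul_le_mul_of_nonneg_left _ (by positivity)
            apply mul_le_mul _ w4 w2 (by positivity)
            exact mul_le_mul k1 k2 k3 (by positivity)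
        _ = (e + 1) ^ 2 * (p ^ 2 * (b ^ p / b ^ 2)) := by rw [w5]; ring
    have t4 : (2 * b ^ p + (e + 1) ^ 2 * (p ^ 2 * b ^ p)) / b ^ 2 =
        2 * (b ^ p / b ^ 2) + (e + 1) ^ 2 * (p ^ 2 * (b ^ p / b ^ 2)) := by ring
    rw [t4] at hlim
    show 2 * w ^ p - 2 * p * (e + 1) * y * w ^ (p - 1)
      - p * (e + 1) * (e + 2) * y * w ^ (p - 1)
      + p * (p - 1) * (e + 1) ^ 2 * y ^ 2 * w ^ (p - 2) - 2 ≤ 0
    linarith

theorem main : S_OPT := by
  intro d k hd hk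
  obtain ⟨e, rfl⟩ : ∃ e, d = e + 1 := ⟨d - 1, by omega⟩
  have hk2 : (2 : ℝ) ≤ k := by exact_mod_cast hk
  have hk0 : (0 : ℝ) < k := by linarith
  obtain ⟨c, hc⟩ : ∃ c : ℝ, c = 1 / (2 * (k : ℝ)) := ⟨_, rfl⟩
  have hc0 : 0 < c := by rw [hc]; positivity
  have hc1 : c ≤ 1 / 4 := by
    rw [hc]
    apply one_div_le_one_div_of_le <;> linarith
  have hkc : (k : ℝ) * c = 1 / 2 := by
    rw [hc]; field_simp
  obtain ⟨b, hb⟩ : ∃ b : ℝ, b = 1 - c ^ (e + 1) := ⟨_, rfl⟩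
  have hcp : c ^ (e + 1) ≤ c := by
    have := pow_le_pow_of_le_one hc0.le (by linarith) (show 1 ≤ e + 1 by omega)
    simpa using this
  have hcp0 : 0 < c ^ (e + 1) := pow_pos hc0 _
  have hb0 : 0 < b := by rw [hb]; linarith
  have hb1 : b < 1 := by rw [hb]; linarith
  have l1 : Tendsto (fun p : ℝ => b ^ p) atTop (𝓝 0) :=
    tendsto_rpow_atTop_of_base_lt_one b (by linarith) hb1
  have l2 : Tendsto (fun p : ℝ => (2 * b ^ p + ((e : ℝ) + 1) ^ 2 * (p ^ 2 * b ^ p)) / b ^ 2) atTop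
      (𝓝 0) := by
    have := (((l1.const_mul 2).add ((lim2 hb0 hb1).const_mul (((e : ℝ) + 1) ^ 2))).div_const (b ^ 2))
    simpa using this
  have ev : ∀ᶠ p : ℝ in atTop, 2 ≤ p ∧
      (2 * b ^ p + ((e : ℝ) + 1) ^ 2 * (p ^ 2 * b ^ p)) / b ^ 2 ≤ 2 := by
    filter_upwards [eventually_ge_atTop (2 : ℝ),
      l2.eventually_le_const (by norm_num : (0 : ℝ) < 2)] with p h1 h2
    exact ⟨h1, h2⟩
  obtain ⟨p₀, hp₀⟩ := eventually_atTop.1 ev
  refine ⟨max p₀ 1, le_max_right _ _, fun p hp s hs hsum => ?_⟩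
  obtain ⟨h1, h2⟩ := hp₀ p (le_trans (le_max_left _ _) hp)
  rw [← hc] at hs
  have hconc := hh_concave e p b c h1 hc0 (by linarith) hb h2
  have hmem : ∀ j ∈ (univ : Finset (Fin k)), s j ∈ Set.Icc c (3 / 4 : ℝ) := by
    intro j _
    refine ⟨hs j, ?_⟩
    have h3 : ∑ i, s i = s j + ∑ i ∈ univ.erase j, s i := (Finset.add_sum_erase _ _ (mem_univ j)).symm
    have h4 : ((univ.erase j).card : ℝ) * c ≤ ∑ i ∈ univ.erase j, s i := by
      rw [← nsmul_eq_mul]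
      exact Finset.card_nsmul_le_sum _ _ _ (fun i _ => hs i)
    have h5 : ((univ.erase j).card : ℝ) = k - 1 := by
      rw [Finset.card_erase_of_mem (mem_univ j), Finset.card_univ, Fintype.card_fin,
        Nat.cast_sub (by omega)]
      norm_num
    rw [h5] at h4
    have h6 : ((k : ℝ) - 1) * c = 1 / 2 - c := by
      rw [sub_mul, hkc, one_mul]
    linarith
  have hJ := hconc.le_map_sum (t := univ) (w := fun _ : Fin k => 1 / (k : ℝ)) (p := s)
    (fun _ _ => by positivity) (by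
      rw [Finset.sum_const, Finset.card_univ, Fintype.card_fin, nsmul_eq_mul]
      field_simp) hmem
  simp only [smul_eq_mul, ← Finset.mul_sum, hsum, mul_one] at hJ
  have hJ2 : ∑ j, hh e p (s j) ≤ k * hh e p (1 / k) := by
    have := mul_le_mul_of_nonneg_left hJ hk0.le
    rwa [← mul_assoc, mul_one_div_cancel hk0.ne', one_mul] at this
  have hexp : ∑ j, hh e p (s j) = ∑ j, s j ^ 2 * (1 - s j ^ (e + 1)) ^ p - ∑ j, s j ^ 2 := by
    unfold hh
    rw [Finset.sum_sub_distrib]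
  have hR : (k : ℝ) * hh e p (1 / k) = 1 / k * (1 - 1 / (k : ℝ) ^ (e + 1)) ^ p - 1 / k := by
    unfold hh
    rw [one_div_pow (k : ℝ) (e + 1)]
    field_simp
  unfold phi
  rw [hexp, hR] at hJ2
  linarith

end Pool.Agent.N373.NT.OPT
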